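import Pool.Agent.Lib.MP_d1bda4_co.Neg
import Pool.Agent.Lib.MP_d1bda4_co.Pos

/-!
# MP_d1bda4_co: a bipartite hypotraceable graph

Own statement, literal to the problem file: Hamilton paths are lists of vertices, a graph is bipartite when its vertex set
splits into two sets such that every edge joins the two, and the deletion of a vertex is the induced subgraph on the other
vertices.
-/

set_option autoImplicit false

namespace Pool.Agent.Results.MP_d1bda4_co.Order186

/-- `G` is traceable: there is a list of pairwise different vertices that contains every vertex and in which consecutive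
vertices are adjacent (a Hamilton path). -/
def Traceable {V : Type} (G : SimpleGraph V) : Prop :=
  ∃ l : List V, l.Nodup ∧ (∀ v : V, v ∈ l) ∧ l.IsChain G.Adj

/-- The graph `G \ v`: the vertex `v` and all edges at `v` are deleted. -/
abbrev deleteVertex {V : Type} (G : SimpleGraph V) (v : V) : SimpleGraph {w : V // w ≠ v} :=
  SimpleGraph.comap (fun w : {w : V // w ≠ v} => w.1) G

/-- `G` is hypotraceable: it has at least three vertices, it is not traceable, and `G \ v` is traceable for every
vertex `v`. -/
def Hypotraceable {V : Type} [Fintype V] (G : SimpleGraph V) : Prop :=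
  3 ≤ Fintype.card V ∧ ¬ Traceable G ∧ ∀ v : V, Traceable (deleteVertex G v)

/-- `G` is bipartite: the vertex set splits into two sets such that every edge joins the two sets. -/
def Bipartite {V : Type} (G : SimpleGraph V) : Prop :=
  ∃ A B : Set V, A ∪ B = Set.univ ∧ A ∩ B = ∅ ∧
    ∀ u v : V, G.Adj u v → (u ∈ A ∧ v ∈ B) ∨ (u ∈ B ∧ v ∈ A)

lemma exists_walk {V : Type} {G : SimpleGraph V} : ∀ (l : List V) (x : V), (x :: l).IsChain G.Adj →
    ∃ (b : V) (p : G.Walk x b), p.support = x :: l
  | [], x, _ => ⟨x, SimpleGraph.Walk.nil, rfl⟩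
  | y :: t, x, h => by
    rw [List.isChain_cons_cons] at h
    obtain ⟨b, p, hp⟩ := exists_walk t y h.2
    exact ⟨b, SimpleGraph.Walk.cons h.1 p, by rw [SimpleGraph.Walk.support_cons, hp]⟩

lemma traceable_iff {V : Type} [DecidableEq V] [Nonempty V] (G : SimpleGraph V) :
    Traceable G ↔ ∃ a b : V, ∃ p : G.Walk a b, p.IsHamiltonian := by
  constructor
  · rintro ⟨l, hn, hm, hc⟩
    rcases l with _ | ⟨x, t⟩
    · exact absurd (hm (Classical.arbitrary V)) (by simp)
    · obtain ⟨b, p, hp⟩ := exists_walk t x hc
      refine ⟨x, b, p, fun s => List.count_eq_one_of_mem ?_ ?_⟩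
      · rw [hp]; exact hn
      · rw [hp]; exact hm s
  · rintro ⟨a, b, p, hp⟩
    exact ⟨p.support, hp.isPath.support_nodup, hp.mem_support, p.isChain_adj_support⟩

/-- **There is a bipartite hypotraceable graph**, connected and with `186` vertices. -/
theorem result : ∃ (V : Type) (_ : Fintype V) (G : SimpleGraph V),
    Fintype.card V = 186 ∧ G.Connected ∧ Bipartite G ∧ Hypotraceable G := by
  refine ⟨Fin 186, inferInstance, Pool.Agent.Lib.MP_d1bda4_co.G, by simp,
    Pool.Agent.Lib.MP_d1bda4_co.conn, ?_, by simp, ?_, ?_⟩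
  · obtain ⟨c⟩ := Pool.Agent.Lib.MP_d1bda4_co.col
    refine ⟨{v | c v = 0}, {v | c v = 1}, ?_, ?_, ?_⟩
    · ext v
      simp only [Set.mem_union, Set.mem_setOf_eq, Set.mem_univ, iff_true]
      have := (c v).2
      omega
    · ext v
      simp only [Set.mem_inter_iff, Set.mem_setOf_eq, Set.mem_empty_iff_false, iff_false]
      rintro ⟨h0, h1⟩
      rw [h0] at h1
      exact absurd h1 (by decide)
    · intro u v h
      have hne : c u ≠ c v := c.valid h
      simp only [Set.mem_setOf_eq]
      have := (c u).2
      have := (c v).2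
      omega
  · rw [traceable_iff]
    exact Pool.Agent.Lib.MP_d1bda4_co.neg
  · intro v
    obtain ⟨a, b, p, hp⟩ := Pool.Agent.Lib.MP_d1bda4_co.pos v
    exact ⟨p.support, hp.isPath.support_nodup, hp.mem_support, p.isChain_adj_support⟩

end Pool.Agent.Results.MP_d1bda4_co.Order186
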